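import Mathlib

set_option autoImplicit false

namespace Pool.Agent.P8H48.TE

open Polynomial Filter Asymptotics
open scoped Topology

/-- The prime divisors over the varieties of a birational class of dimension `dim`, and the smooth
projective models `V` with a simple normal crossing divisor whose components are `divs V`; `diag V I`
is the diagonal Hodge-Deligne polynomial `∑ e^{p,p} L^p` of the stratum of the points of `V` which lie
on the divisors of `I` and on no other component. -/
structure BirClass where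
  Place : Type
  dim : ℕ
  Model : Type
  divs : Model → Finset Place
  diag : Model → Finset Place → ℤ[X]
  lead : ∀ V I, I ⊆ divs V → diag V I = 0 ∨ 0 < (diag V I).leadingCoeff
  single : ∀ V, ∀ E ∈ divs V, 0 < (diag V {E}).leadingCoeff ∧ (diag V {E}).natDegree + 1 = dim
  hodge : ∀ V, divs V = ∅ → ∀ p, 0 ≤ (diag V ∅).coeff p

/-- The factor `(L - 1) / (L^(a+1) - 1)` of a divisor of discrepancy `a`. -/
noncomputable def fac (a L : ℝ) : ℝ := (L - 1) / (L ^ (a + 1) - 1)

/-- A variety of the class (or a klt pair): discrepancies, log resolutions, diagonal stringy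
E-function. -/
structure Variety (B : BirClass) where
  disc : B.Place → ℝ
  klt : ∀ E, -1 < disc E
  IsRes : B.Model → Prop
  stringy : ℝ → ℝ
  formula : ∀ V, IsRes V → ∀ L : ℝ, 1 < L → stringy L =
    ∑ I ∈ (B.divs V).powerset, ((B.diag V I).map (Int.castRingHom ℝ)).eval L *
      ∏ E ∈ I, fac (disc E) L

variable {B : BirClass}

theorem fac_pos {a L : ℝ} (ha : -1 < a) (hL : 1 < L) : 0 < fac a L := by
  unfold fac
  have h : 1 < L ^ (a + 1) := Real.one_lt_rpow hL (by linarith)
  exact div_pos (by linarith) (by linarith)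

theorem fac_anti {a b L : ℝ} (ha : -1 < a) (hab : a ≤ b) (hL : 1 < L) : fac b L ≤ fac a L := by
  unfold fac
  have h : 1 < L ^ (a + 1) := Real.one_lt_rpow hL (by linarith)
  have h2 : L ^ (a + 1) ≤ L ^ (b + 1) := Real.rpow_le_rpow_of_exponent_le hL.le (by linarith)
  exact div_le_div_of_nonneg_left (by linarith) (by linarith) (by linarith)

theorem fac_strict {a b L : ℝ} (ha : -1 < a) (hab : a < b) (hL : 1 < L) : fac b L < fac a L := by
  unfold fac
  have h : 1 < L ^ (a + 1) := Real.one_lt_rpow hL (by linarith)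
  have h2 : L ^ (a + 1) < L ^ (b + 1) := Real.rpow_lt_rpow_of_exponent_lt hL (by linarith)
  exact div_lt_div_of_pos_left (by linarith) (by linarith) (by linarith)

theorem ev_pos {P : ℤ[X]} (h : 0 < P.leadingCoeff) :
    ∀ᶠ L : ℝ in atTop, 0 < (P.map (Int.castRingHom ℝ)).eval L := by
  set Q := P.map (Int.castRingHom ℝ) with hQ
  have hinj : Function.Injective (Int.castRingHom ℝ) := Int.cast_injective
  have hlc : Q.leadingCoeff = (P.leadingCoeff : ℝ) := by
    rw [hQ, leadingCoeff_map_of_injective hinj]; rfl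
  have hlc0 : 0 < Q.leadingCoeff := by rw [hlc]; exact_mod_cast h
  rcases Nat.eq_zero_or_pos Q.natDegree with h0 | h0
  · filter_upwards with L
    rw [eq_C_of_natDegree_eq_zero h0, eval_C]
    rw [leadingCoeff, h0] at hlc0
    exact hlc0
  · have := Q.tendsto_atTop_of_leadingCoeff_nonneg (by
      rw [Polynomial.degree_eq_natDegree (by intro h; simp [h] at hlc0)]
      exact_mod_cast h0) hlc0.le
    exact this.eventually_gt_atTop 0

/-- A birational map which decreases the canonical divisor (such as a flip): no discrepancy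
decreases and one increases. -/
def Up (X Y : Variety B) : Prop :=
  (∀ E, X.disc E ≤ Y.disc E) ∧ ∃ E, X.disc E < Y.disc E

/-- Two varieties of the class have common log resolutions on which a given prime divisor over
them appears. -/
def Common (X Y : Variety B) : Prop := ∀ E, ∃ V, X.IsRes V ∧ Y.IsRes V ∧ E ∈ B.divs V

theorem strat_nonneg (V : B.Model) : ∀ᶠ L : ℝ in atTop, ∀ I ∈ (B.divs V).powerset,
    0 ≤ ((B.diag V I).map (Int.castRingHom ℝ)).eval L := by
  rw [Filter.eventually_all_finset]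
  intro I hI
  rcases B.lead V I (Finset.mem_powerset.1 hI) with h | h
  · filter_upwards with L
    simp [h]
  · filter_upwards [ev_pos h] with L hL
    exact hL.le

/-- The lower bound of the difference by the term of a single divisor. -/
theorem diff_ge {X Y : Variety B} (V : B.Model) (hX : X.IsRes V) (hY : Y.IsRes V)
    (hle : ∀ E, X.disc E ≤ Y.disc E) {E : B.Place} (hE : E ∈ B.divs V) :
    ∀ᶠ L : ℝ in atTop, ((B.diag V {E}).map (Int.castRingHom ℝ)).eval L *
      (fac (X.disc E) L - fac (Y.disc E) L) ≤ X.stringy L - Y.stringy L := by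
  filter_upwards [strat_nonneg V, eventually_gt_atTop 1] with L h1 hL
  rw [X.formula V hX L hL, Y.formula V hY L hL, ← Finset.sum_sub_distrib]
  have hterm : ∀ I ∈ (B.divs V).powerset,
      0 ≤ ((B.diag V I).map (Int.castRingHom ℝ)).eval L * ∏ E ∈ I, fac (X.disc E) L -
        ((B.diag V I).map (Int.castRingHom ℝ)).eval L * ∏ E ∈ I, fac (Y.disc E) L := by
    intro I hI
    rw [← mul_sub]
    refine mul_nonneg (h1 I hI) (sub_nonneg.2 ?_)
    exact Finset.prod_le_prod (fun F _ => (fac_pos (Y.klt F) hL).le)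
      (fun F _ => fac_anti (X.klt F) (hle F) hL)
  have hmem : ({E} : Finset B.Place) ∈ (B.divs V).powerset := by
    rw [Finset.mem_powerset, Finset.singleton_subset_iff]; exact hE
  have := Finset.single_le_sum hterm hmem
  refine le_trans (le_of_eq ?_) this
  rw [Finset.prod_singleton, Finset.prod_singleton, mul_sub]

theorem ev_le {X Y : Variety B} (hn : Nonempty B.Place) (hc : Common X Y)
    (hle : ∀ E, X.disc E ≤ Y.disc E) :
    ∀ᶠ L : ℝ in atTop, Y.stringy L ≤ X.stringy L := by
  obtain ⟨E⟩ := hn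
  obtain ⟨V, h1, h2, hE⟩ := hc E
  filter_upwards [diff_ge V h1 h2 hle hE, ev_pos (B.single V E hE).1, eventually_gt_atTop 1]
    with L h3 h4 hL
  have h5 : 0 ≤ ((B.diag V {E}).map (Int.castRingHom ℝ)).eval L *
      (fac (X.disc E) L - fac (Y.disc E) L) :=
    mul_nonneg h4.le (sub_nonneg.2 (fac_anti (X.klt E) (hle E) hL))
  linarith

theorem ev_lt {X Y : Variety B} (hc : Common X Y) (h : Up X Y) :
    ∀ᶠ L : ℝ in atTop, Y.stringy L < X.stringy L := by
  obtain ⟨hle, E, hE⟩ := h
  obtain ⟨V, h1, h2, hEV⟩ := hc E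
  filter_upwards [diff_ge V h1 h2 hle hEV, ev_pos (B.single V E hEV).1, eventually_gt_atTop 1]
    with L h3 h4 hL
  have h5 : 0 < ((B.diag V {E}).map (Int.castRingHom ℝ)).eval L *
      (fac (X.disc E) L - fac (Y.disc E) L) :=
    mul_pos h4 (sub_pos.2 (fac_strict (X.klt E) hE hL))
  linarith

/-- Sequences of flips: infinite sequences of varieties of the class. -/
def Flips (X : ℕ → Variety B) : Prop :=
  (∀ i j, Common (X i) (X j)) ∧ ∀ i, Up (X i) (X (i + 1))

theorem Flips.le {X : ℕ → Variety B} (h : Flips X) {i j : ℕ} (hij : i ≤ j) (E : B.Place) :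
    (X i).disc E ≤ (X j).disc E := by
  induction j, hij using Nat.le_induction with
  | base => exact le_rfl
  | succ k _ ih => exact ih.trans ((h.2 k).1 E)

theorem Flips.up {X : ℕ → Variety B} (h : Flips X) {i j : ℕ} (hij : i < j) : Up (X i) (X j) := by
  refine ⟨fun E => h.le hij.le E, ?_⟩
  obtain ⟨E, hE⟩ := (h.2 i).2
  exact ⟨E, hE.trans_le (h.le (Nat.succ_le_of_lt hij) E)⟩

theorem Flips.lt {X : ℕ → Variety B} (h : Flips X) {i j : ℕ} (hij : i < j) :
    ∀ᶠ L : ℝ in atTop, (X j).stringy L < (X i).stringy L :=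
  ev_lt (h.1 i j) (h.up hij)

/-- `X` is effective with exponents in `T` (up to the function `G`): for large `L` the function
`stringy L + G L` is a finite sum of powers `L^s`, `s ∈ T`. -/
def Effective (T : Set ℝ) (G : ℝ → ℝ) (X : Variety B) : Prop :=
  ∃ l : List ℝ, (∀ s ∈ l, s ∈ T) ∧
    ∀ᶠ L : ℝ in atTop, X.stringy L + G L = (l.map fun s => L ^ s).sum

theorem sub_le {l l' : List ℝ} (h : List.SublistForall₂ (· ≤ ·) l l') {L : ℝ} (hL : 1 < L) :
    (l.map fun s => L ^ s).sum ≤ (l'.map fun s => L ^ s).sum := by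
  induction h with
  | nil =>
    simp only [List.map_nil, List.sum_nil]
    refine List.sum_nonneg ?_
    intro x hx
    obtain ⟨s, _, rfl⟩ := List.mem_map.1 hx
    exact (Real.rpow_pos_of_pos (by linarith) s).le
  | cons hab _ ih =>
    simp only [List.map_cons, List.sum_cons]
    exact add_le_add (Real.rpow_le_rpow_of_exponent_le hL.le hab) ih
  | cons_right _ ih =>
    simp only [List.map_cons, List.sum_cons]
    have := Real.rpow_pos_of_pos (show (0 : ℝ) < L by linarith)
    exact ih.trans (le_add_of_nonneg_left (this _).le)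

theorem effective_finite {X : ℕ → Variety B} (h : Flips X) {T : Set ℝ} (hT : T.IsWF)
    (G : ℝ → ℝ) : {i | Effective T G (X i)}.Finite := by
  by_contra hinf
  have hfr := Nat.frequently_atTop_iff_infinite.2 hinf
  obtain ⟨φ, hφ, hP⟩ := extraction_of_frequently_atTop hfr
  choose l hl1 hl2 using hP
  have hpwo : T.PartiallyWellOrderedOn (· ≤ ·) := hT.isPWO
  have hH := Set.PartiallyWellOrderedOn.partiallyWellOrderedOn_sublistForall₂ (· ≤ ·) hpwo
  obtain ⟨m, n, hmn, hr⟩ := hH.exists_lt (f := l) (fun k => fun x hx => hl1 k x hx)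
  have h1 := h.lt (hφ hmn)
  obtain ⟨L, hL1, hL2, hL3, hL4⟩ := (h1.and ((hl2 m).and ((hl2 n).and
    (eventually_gt_atTop (1 : ℝ))))).exists
  have := sub_le hr hL4
  linarith

/-- A step whose exceptional locus has a divisor of log discrepancy at most `dim - s` over it with
increasing discrepancy. -/
def Big (s : ℝ) (X Y : Variety B) : Prop :=
  ∃ E, X.disc E < Y.disc E ∧ X.disc E + 1 ≤ B.dim - s

/-- As `Effective`, up to terms of smaller order than `L^s₀`. -/
def EffectiveAbove (s₀ : ℝ) (T : Set ℝ) (G : ℝ → ℝ) (X : Variety B) : Prop :=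
  ∃ l : List ℝ, (∀ s ∈ l, s ∈ T) ∧
    (fun L : ℝ => X.stringy L + G L - (l.map fun s => L ^ s).sum) =o[atTop] fun L : ℝ => L ^ s₀

theorem fac_tendsto {a : ℝ} (ha : -1 < a) :
    Tendsto (fun L : ℝ => fac a L * L ^ a) atTop (𝓝 1) := by
  have h1 : Tendsto (fun L : ℝ => L ^ (-(a + 1))) atTop (𝓝 0) :=
    tendsto_rpow_neg_atTop (by linarith)
  have h2 : Tendsto (fun L : ℝ => L⁻¹) atTop (𝓝 0) := tendsto_inv_atTop_zero
  have h3 : Tendsto (fun L : ℝ => (1 - L⁻¹) / (1 - L ^ (-(a + 1)))) atTop (𝓝 ((1 - 0) / (1 - 0))) :=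
    (tendsto_const_nhds.sub h2).div (tendsto_const_nhds.sub h1) (by norm_num)
  simp only [sub_zero, div_one] at h3
  refine h3.congr' ?_
  filter_upwards [eventually_gt_atTop (1 : ℝ)] with L hL
  have hL0 : 0 < L := by linarith
  have h4 : 1 < L ^ (a + 1) := Real.one_lt_rpow hL (by linarith)
  have h5 : L ^ (a + 1) = L ^ a * L := by rw [Real.rpow_add hL0, Real.rpow_one]
  have h6 : 0 < L ^ a := Real.rpow_pos_of_pos hL0 a
  have h10 : L ^ (-(a + 1)) = (L ^ a * L)⁻¹ := by rw [Real.rpow_neg hL0.le, h5]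
  rw [h5] at h4
  have h7 : L ^ a * L - 1 ≠ 0 := by
    intro h
    linarith
  have h9 : 1 - (L ^ a * L)⁻¹ = (L ^ a * L - 1) / (L ^ a * L) := by field_simp
  unfold fac
  rw [h10, h9, h5]
  field_simp

theorem step_lower {X Y : Variety B} (hc : Common X Y) (h : Up X Y) {s₀ : ℝ} (hb : Big s₀ X Y) :
    ∃ c : ℝ, 0 < c ∧ ∀ᶠ L : ℝ in atTop, c * L ^ s₀ ≤ X.stringy L - Y.stringy L := by
  obtain ⟨E, hE, hs⟩ := hb
  obtain ⟨V, h1, h2, hEV⟩ := hc E
  set a := X.disc E with ha
  set b := Y.disc E with hbd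
  have ha0 : -1 < a := X.klt E
  have hb0 : -1 < b := Y.klt E
  obtain ⟨hlc, hdeg⟩ := B.single V E hEV
  set Q := (B.diag V {E}).map (Int.castRingHom ℝ) with hQ
  have hinj : Function.Injective (Int.castRingHom ℝ) := Int.cast_injective
  have hlcQ : Q.leadingCoeff = ((B.diag V {E}).leadingCoeff : ℝ) := by
    rw [hQ, leadingCoeff_map_of_injective hinj]; rfl
  have hdQ : Q.natDegree = (B.diag V {E}).natDegree := by
    rw [hQ, natDegree_map_eq_of_injective hinj]
  have hlc0 : 0 < Q.leadingCoeff := by rw [hlcQ]; exact_mod_cast hlc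
  set d := Q.natDegree with hd
  have hdim : (B.dim : ℝ) = d + 1 := by rw [hdQ, ← hdeg]; push_cast; ring
  have t1 : Tendsto (fun L : ℝ => Q.eval L / L ^ d) atTop (𝓝 Q.leadingCoeff) := by
    have := Q.isEquivalent_atTop_lead
    have h3 := (this.div (IsEquivalent.refl (u := fun L : ℝ => L ^ d))).tendsto_nhds_iff
      (c := Q.leadingCoeff)
    refine h3.2 ?_
    refine tendsto_const_nhds.congr' ?_
    filter_upwards [eventually_gt_atTop (0 : ℝ)] with L hL
    simp only [Pi.div_apply]
    rw [← hd]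
    field_simp
  have t2 := fac_tendsto ha0
  have t3 : Tendsto (fun L : ℝ => fac b L * L ^ a) atTop (𝓝 0) := by
    have h4 := (fac_tendsto hb0).mul (tendsto_rpow_neg_atTop (show 0 < b - a by linarith))
    rw [mul_zero] at h4
    refine h4.congr' ?_
    filter_upwards [eventually_gt_atTop (0 : ℝ)] with L hL
    rw [mul_assoc, ← Real.rpow_add hL]
    congr 2
    ring
  have t4 : Tendsto (fun L : ℝ => (Q.eval L / L ^ d) * (fac a L * L ^ a - fac b L * L ^ a)) atTop
      (𝓝 (Q.leadingCoeff * (1 - 0))) := t1.mul (t2.sub t3)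
  rw [sub_zero, mul_one] at t4
  refine ⟨Q.leadingCoeff / 2, by positivity, ?_⟩
  filter_upwards [t4.eventually_const_lt (show Q.leadingCoeff / 2 < Q.leadingCoeff by linarith),
    diff_ge V h1 h2 h.1 hEV, eventually_gt_atTop (1 : ℝ)] with L g1 g2 hL
  have hL0 : 0 < L := by linarith
  refine le_trans ?_ g2
  have g3 : Q.eval L * (fac a L - fac b L) =
      (Q.eval L / L ^ d) * (fac a L * L ^ a - fac b L * L ^ a) * L ^ ((d : ℝ) - a) := by
    rw [Real.rpow_sub hL0, Real.rpow_natCast]
    have : 0 < L ^ a := Real.rpow_pos_of_pos hL0 a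
    field_simp
  have g4 : L ^ s₀ ≤ L ^ ((d : ℝ) - a) :=
    Real.rpow_le_rpow_of_exponent_le hL.le (by linarith)
  have g5 : 0 < L ^ s₀ := Real.rpow_pos_of_pos hL0 _
  rw [g3]
  calc Q.leadingCoeff / 2 * L ^ s₀ ≤ Q.leadingCoeff / 2 * L ^ ((d : ℝ) - a) :=
        mul_le_mul_of_nonneg_left g4 (by positivity)
    _ ≤ _ := mul_le_mul_of_nonneg_right g1.le (by positivity)

theorem above_finite {X : ℕ → Variety B} (h : Flips X) {T : Set ℝ} (hT : T.IsWF)
    (G : ℝ → ℝ) (s₀ : ℝ) : {i | EffectiveAbove s₀ T G (X i)}.Finite ∨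
      {i | Big s₀ (X i) (X (i + 1))}.Finite := by
  by_contra hcon
  obtain ⟨hJ, hK⟩ := not_or.1 hcon
  have hK : {i | Big s₀ (X i) (X (i + 1))}.Infinite := hK
  have hne : Nonempty B.Place := ⟨(h.2 0).2.choose⟩
  obtain ⟨φ, hφ, hP⟩ := extraction_of_frequently_atTop (Nat.frequently_atTop_iff_infinite.2 hJ)
  choose l hl1 hl2 using hP
  have hpwo : T.PartiallyWellOrderedOn (· ≤ ·) := hT.isPWO
  have hH := Set.PartiallyWellOrderedOn.partiallyWellOrderedOn_sublistForall₂ (· ≤ ·) hpwo
  have : IsPreorder (List ℝ) (List.SublistForall₂ ((· ≤ ·) : ℝ → ℝ → Prop)) := {}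
  obtain ⟨g, hg⟩ := hH.exists_monotone_subseq (f := l) (fun k => fun x hx => hl1 k x hx)
  obtain ⟨k, hk, hk1⟩ := hK.exists_gt (φ (g 0))
  obtain ⟨n, hn⟩ : ∃ n, k + 1 ≤ φ (g n) :=
    ⟨k + 1, (hφ.le_apply).trans (hφ.monotone (g.strictMono.le_apply))⟩
  have hr := hg 0 n (Nat.zero_le n)
  obtain ⟨c, hc, hstep⟩ := step_lower (h.1 k (k + 1)) (h.2 k) hk
  have e1 := ev_le hne (h.1 (φ (g 0)) k) (fun E => h.le hk1.le E)
  have e2 := ev_le hne (h.1 (k + 1) (φ (g n))) (fun E => h.le hn E)
  have o := (hl2 (g n)).sub (hl2 (g 0))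
  have ob := o.bound (show 0 < c / 2 by positivity)
  obtain ⟨L, a1, a2, a3, a4, hL⟩ := (e1.and (e2.and (hstep.and (ob.and
    (eventually_gt_atTop (1 : ℝ)))))).exists
  have hs := sub_le hr hL
  have hp : 0 < L ^ s₀ := Real.rpow_pos_of_pos (by linarith) _
  rw [Real.norm_of_nonneg hp.le] at a4
  have a5 := (abs_le.1 (by simpa [Real.norm_eq_abs] using a4)).1
  nlinarith

/-- `X` is smooth: it is its own log resolution, without divisors. -/
def Smooth (X : Variety B) : Prop := ∃ V, X.IsRes V ∧ B.divs V = ∅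

/-- The stringy E-function of `X` is a polynomial in `L^(1/m)` with natural coefficients. -/
def Orb (m : ℕ) (X : Variety B) : Prop :=
  ∃ P : ℕ[X], ∀ᶠ L : ℝ in atTop,
    X.stringy L = (P.map (Nat.castRingHom ℝ)).eval (L ^ (1 / (m : ℝ)))

theorem smooth_stringy {X : Variety B} {V : B.Model} (h : X.IsRes V) (hV : B.divs V = ∅) {L : ℝ}
    (hL : 1 < L) : X.stringy L = ((B.diag V ∅).map (Int.castRingHom ℝ)).eval L := by
  rw [X.formula V h L hL, hV]
  simp

theorem exists_list (m : ℕ) (P : ℕ[X]) :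
    ∃ l : List ℝ, (∀ s ∈ l, s ∈ Set.range fun k : ℕ => (k : ℝ) / m) ∧ ∀ L : ℝ, 0 < L →
      (P.map (Nat.castRingHom ℝ)).eval (L ^ (1 / (m : ℝ))) = (l.map fun s => L ^ s).sum := by
  induction P using Polynomial.induction_on' with
  | add P Q hP hQ =>
    obtain ⟨l, h1, h2⟩ := hP
    obtain ⟨l', h3, h4⟩ := hQ
    refine ⟨l ++ l', ?_, ?_⟩
    · intro s hs
      rcases List.mem_append.1 hs with h | h
      · exact h1 s h
      · exact h3 s h
    · intro L hL
      rw [Polynomial.map_add, eval_add, h2 L hL, h4 L hL, List.map_append, List.sum_append]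
  | monomial k c =>
    refine ⟨List.replicate c ((k : ℝ) / m), ?_, ?_⟩
    · intro s hs
      exact ⟨k, (List.eq_of_mem_replicate hs).symm⟩
    · intro L hL
      rw [Polynomial.map_monomial, eval_monomial, List.map_replicate, List.sum_replicate,
        nsmul_eq_mul, ← Real.rpow_natCast, ← Real.rpow_mul hL.le]
      simp only [Nat.coe_castRingHom]
      congr 2
      ring

theorem Orb.effective {m : ℕ} {X : Variety B} (h : Orb m X) :
    Effective (Set.range fun k : ℕ => (k : ℝ) / m) (fun _ => 0) X := by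
  obtain ⟨P, hP⟩ := h
  obtain ⟨l, h1, h2⟩ := exists_list m P
  refine ⟨l, h1, ?_⟩
  filter_upwards [hP, eventually_gt_atTop (0 : ℝ)] with L h3 hL
  rw [h3, add_zero, h2 L hL]

theorem range_isWF (m : ℕ) : (Set.range fun k : ℕ => (k : ℝ) / m).IsWF := by
  have h : (Set.univ : Set ℕ).IsPWO := Set.isPWO_of_wellQuasiOrderedLE _
  have h2 := h.image_of_monotone (f := fun k : ℕ => (k : ℝ) / m)
    (fun a b hab => div_le_div_of_nonneg_right (by exact_mod_cast hab) (Nat.cast_nonneg m))
  rw [Set.image_univ] at h2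
  exact h2.isWF

theorem Smooth.orb {X : Variety B} (h : Smooth X) : Orb 1 X := by
  obtain ⟨V, h1, h2⟩ := h
  have h3 := B.hodge V h2
  refine ⟨∑ k ∈ Finset.range ((B.diag V ∅).natDegree + 1),
    monomial k ((B.diag V ∅).coeff k).toNat, ?_⟩
  filter_upwards [eventually_gt_atTop (1 : ℝ)] with L hL
  rw [smooth_stringy h1 h2 hL, Nat.cast_one, div_one, Real.rpow_one, Polynomial.map_sum,
    eval_finsetSum, eval_eq_sum_range,
    natDegree_map_eq_of_injective (show Function.Injective (Int.castRingHom ℝ) from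
      Int.cast_injective)]
  refine Finset.sum_congr rfl fun k _ => ?_
  rw [Polynomial.map_monomial, eval_monomial, coeff_map]
  congr 1
  simp only [Nat.coe_castRingHom, eq_intCast]
  have := Int.toNat_of_nonneg (h3 k)
  exact_mod_cast this.symm

/-- The first Hodge number `h^{p,p}` (from the top) at which two smooth members differ drops. -/
theorem lex {X Y : Variety B} (h : ∀ᶠ L : ℝ in atTop, Y.stringy L < X.stringy L) {V W : B.Model}
    (hV : X.IsRes V) (hV0 : B.divs V = ∅) (hW : Y.IsRes W) (hW0 : B.divs W = ∅) :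
    0 < (B.diag V ∅ - B.diag W ∅).leadingCoeff := by
  by_contra hcon
  have hle : (B.diag V ∅ - B.diag W ∅).leadingCoeff ≤ 0 := not_lt.1 hcon
  rcases hle.lt_or_eq with h1 | h1
  · have h2 : 0 < (B.diag W ∅ - B.diag V ∅).leadingCoeff := by
      have h3 : B.diag W ∅ - B.diag V ∅ = -(B.diag V ∅ - B.diag W ∅) := by ring
      rw [h3, leadingCoeff_neg]
      linarith
    obtain ⟨L, h4, h5, hL⟩ := (h.and ((ev_pos h2).and (eventually_gt_atTop (1 : ℝ)))).exists
    rw [smooth_stringy hV hV0 hL, smooth_stringy hW hW0 hL] at h4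
    rw [Polynomial.map_sub, eval_sub] at h5
    linarith
  · have h2 : B.diag V ∅ = B.diag W ∅ := sub_eq_zero.1 (leadingCoeff_eq_zero.1 h1)
    obtain ⟨L, h4, hL⟩ := (h.and (eventually_gt_atTop (1 : ℝ))).exists
    rw [smooth_stringy hV hV0 hL, smooth_stringy hW hW0 hL, h2] at h4
    exact lt_irrefl _ h4

/-- A finite set of functions contains the stringy functions of finitely many members only. -/
theorem finite_functions {X : ℕ → Variety B} (h : Flips X) {Φ : Set (ℝ → ℝ)} (hΦ : Φ.Finite) :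
    {i | ∃ f ∈ Φ, ∀ᶠ L : ℝ in atTop, (X i).stringy L = f L}.Finite := by
  have hsub : {i | ∃ f ∈ Φ, ∀ᶠ L : ℝ in atTop, (X i).stringy L = f L} ⊆
      ⋃ f ∈ Φ, {i | ∀ᶠ L : ℝ in atTop, (X i).stringy L = f L} := by
    rintro i ⟨f, hf, hi⟩
    exact Set.mem_biUnion hf hi
  refine Set.Finite.subset (hΦ.biUnion fun f _ => ?_) hsub
  refine Set.Subsingleton.finite ?_
  intro i hi j hj
  rcases lt_trichotomy i j with hij | hij | hij
  · obtain ⟨L, h1, h2, h3⟩ := ((h.lt hij).and (Filter.Eventually.and hi hj)).exists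
    linarith
  · exact hij
  · obtain ⟨L, h1, h2, h3⟩ := ((h.lt hij).and (Filter.Eventually.and hi hj)).exists
    linarith

end Pool.Agent.P8H48.TE
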