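import Pool.Agent.P8H48.TE.Base

set_option autoImplicit false

namespace Pool.Agent.P8H48.TE

open Polynomial Filter Asymptotics
open scoped Topology

/-- A set of functions which are nonnegative for large arguments and well-quasi-ordered by
`f ≤ g` for large arguments: each sequence `f 0, f 1, ...` in it has `m < n` with `f m ≤ f n` for
large arguments. -/
def IsWqo (Φ : Set (ℝ → ℝ)) : Prop :=
  (∀ b ∈ Φ, ∀ᶠ L : ℝ in atTop, 0 ≤ b L) ∧
    ∀ f : ℕ → ℝ → ℝ, (∀ n, f n ∈ Φ) → ∃ m n, m < n ∧ ∀ᶠ L : ℝ in atTop, f m L ≤ f n L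

/-- `X` is effective with respect to `Φ` (up to the function `G`): for large `L` the number
`stringy L + G L` is the sum of the values at `L` of a finite list of functions of `Φ`. -/
def EffectiveFor (Φ : Set (ℝ → ℝ)) (G : ℝ → ℝ) {B : BirClass} (X : Variety B) : Prop :=
  ∃ l : List (ℝ → ℝ), (∀ b ∈ l, b ∈ Φ) ∧
    ∀ᶠ L : ℝ in atTop, X.stringy L + G L = (l.map fun b => b L).sum

/-- As `EffectiveFor`, up to terms of smaller order than `L^s₀`. -/
def EffectiveForAbove (s₀ : ℝ) (Φ : Set (ℝ → ℝ)) (G : ℝ → ℝ) {B : BirClass} (X : Variety B) : Prop :=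
  ∃ l : List (ℝ → ℝ), (∀ b ∈ l, b ∈ Φ) ∧
    (fun L : ℝ => X.stringy L + G L - (l.map fun b => b L).sum) =o[atTop] fun L : ℝ => L ^ s₀

/-- Eventual domination. -/
def EvLe (f g : ℝ → ℝ) : Prop := ∀ᶠ L : ℝ in atTop, f L ≤ g L

theorem IsWqo.pwo {Φ : Set (ℝ → ℝ)} (h : IsWqo Φ) : Φ.PartiallyWellOrderedOn EvLe :=
  Set.partiallyWellOrderedOn_iff_exists_lt.2 fun f hf => h.2 f hf

theorem sub_le' {Φ : Set (ℝ → ℝ)} (h0 : ∀ b ∈ Φ, ∀ᶠ L : ℝ in atTop, 0 ≤ b L)
    {l l' : List (ℝ → ℝ)} (h : List.SublistForall₂ EvLe l l') (hl' : ∀ b ∈ l', b ∈ Φ) :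
    ∀ᶠ L : ℝ in atTop, (l.map fun b => b L).sum ≤ (l'.map fun b => b L).sum := by
  induction h with
  | @nil l' =>
    induction l' with
    | nil => simp
    | cons a t ih =>
      filter_upwards [ih fun b hb => hl' b (List.mem_cons_of_mem _ hb),
        h0 a (hl' a List.mem_cons_self)] with L h1 h2
      simp only [List.map_nil, List.sum_nil, List.map_cons, List.sum_cons] at h1 ⊢
      linarith
  | cons hab _ ih =>
    filter_upwards [ih fun b hb => hl' b (List.mem_cons_of_mem _ hb), hab] with L h1 h2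
    simp only [List.map_cons, List.sum_cons]
    linarith
  | @cons_right a l₁ l₂ _ ih =>
    filter_upwards [ih fun b hb => hl' b (List.mem_cons_of_mem _ hb),
      h0 a (hl' a List.mem_cons_self)] with L h1 h2
    simp only [List.map_cons, List.sum_cons]
    linarith

instance : Std.Refl EvLe := ⟨fun _ => Eventually.of_forall fun _ => le_rfl⟩

instance : IsTrans (ℝ → ℝ) EvLe := ⟨fun _ _ _ h1 h2 => by
  filter_upwards [h1, h2] with L a b using a.trans b⟩

instance : IsPreorder (ℝ → ℝ) EvLe := {}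

variable {B : BirClass}

theorem effectiveFor_finite {X : ℕ → Variety B} (h : Flips X) {Φ : Set (ℝ → ℝ)} (hΦ : IsWqo Φ)
    (G : ℝ → ℝ) : {i | EffectiveFor Φ G (X i)}.Finite := by
  by_contra hinf
  have hfr := Nat.frequently_atTop_iff_infinite.2 hinf
  obtain ⟨φ, hφ, hP⟩ := extraction_of_frequently_atTop hfr
  choose l hl1 hl2 using hP
  have hH := Set.PartiallyWellOrderedOn.partiallyWellOrderedOn_sublistForall₂ EvLe hΦ.pwo
  obtain ⟨m, n, hmn, hr⟩ := hH.exists_lt (f := l) (fun k => fun x hx => hl1 k x hx)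
  have h1 := h.lt (hφ hmn)
  obtain ⟨L, hL1, hL2, hL3, hL4⟩ := (h1.and ((hl2 m).and ((hl2 n).and
    (sub_le' hΦ.1 hr (hl1 n))))).exists
  linarith

theorem forAbove_finite {X : ℕ → Variety B} (h : Flips X) {Φ : Set (ℝ → ℝ)} (hΦ : IsWqo Φ)
    (G : ℝ → ℝ) (s₀ : ℝ) : {i | EffectiveForAbove s₀ Φ G (X i)}.Finite ∨
      {i | Big s₀ (X i) (X (i + 1))}.Finite := by
  by_contra hcon
  obtain ⟨hJ, hK⟩ := not_or.1 hcon
  have hK : {i | Big s₀ (X i) (X (i + 1))}.Infinite := hK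
  have hne : Nonempty B.Place := ⟨(h.2 0).2.choose⟩
  obtain ⟨φ, hφ, hP⟩ := extraction_of_frequently_atTop (Nat.frequently_atTop_iff_infinite.2 hJ)
  choose l hl1 hl2 using hP
  have hH := Set.PartiallyWellOrderedOn.partiallyWellOrderedOn_sublistForall₂ EvLe hΦ.pwo
  have : IsPreorder (List (ℝ → ℝ)) (List.SublistForall₂ EvLe) := {}
  obtain ⟨g, hg⟩ := hH.exists_monotone_subseq (f := l) (fun k => fun x hx => hl1 k x hx)
  obtain ⟨k, hk, hk1⟩ := hK.exists_gt (φ (g 0))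
  obtain ⟨n, hn⟩ : ∃ n, k + 1 ≤ φ (g n) :=
    ⟨k + 1, (hφ.le_apply).trans (hφ.monotone (g.strictMono.le_apply))⟩
  have hr := hg 0 n (Nat.zero_le n)
  obtain ⟨c, hc, hstep⟩ := step_lower (h.1 k (k + 1)) (h.2 k) hk
  have e1 := ev_le hne (h.1 (φ (g 0)) k) (fun E => h.le hk1.le E)
  have e2 := ev_le hne (h.1 (k + 1) (φ (g n))) (fun E => h.le hn E)
  have o := (hl2 (g n)).sub (hl2 (g 0))
  have ob := o.bound (show 0 < c / 2 by positivity)
  obtain ⟨L, a1, a2, a3, a4, hs, hL⟩ := (e1.and (e2.and (hstep.and (ob.and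
    ((sub_le' hΦ.1 hr (hl1 (g n))).and (eventually_gt_atTop (1 : ℝ))))))).exists
  have hp : 0 < L ^ s₀ := Real.rpow_pos_of_pos (by linarith) _
  rw [Real.norm_of_nonneg hp.le] at a4
  have a5 := (abs_le.1 (by simpa [Real.norm_eq_abs] using a4)).1
  nlinarith

/-- The powers `L^s` with exponents in a well-ordered set. -/
theorem powers_wqo {T : Set ℝ} (hT : T.IsWF) :
    IsWqo {f : ℝ → ℝ | ∃ s ∈ T, f = fun L => L ^ s} := by
  constructor
  · rintro b ⟨s, _, rfl⟩
    filter_upwards [eventually_gt_atTop (0 : ℝ)] with L hL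
    exact (Real.rpow_pos_of_pos hL s).le
  · intro f hf
    choose s hs hfs using hf
    obtain ⟨m, n, hmn, hle⟩ := hT.isPWO.exists_lt (f := s) hs
    refine ⟨m, n, hmn, ?_⟩
    filter_upwards [eventually_gt_atTop (1 : ℝ)] with L hL
    rw [hfs m, hfs n]
    exact Real.rpow_le_rpow_of_exponent_le hL.le hle

end Pool.Agent.P8H48.TE
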